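import Pool.Agent.Helper76x.OF.Fin3

/-!
# The congruence subgroup property on subgroups built from virtually solvable subgroups of the
groups `Out (F_m)` by free products and free extensions

`Cong n S`: for every subgroup `V` of finite index of `Aut (F_n)` there is a characteristic subgroup `K` of
finite index of `F_n` such that all automorphisms in `S` which act trivially on `F_n / K` are in `V`.
`OutCong n S`: for every normal subgroup `V` of finite index of `Aut (F_n)` which contains the inner
automorphisms (that is, for every finite quotient of `Out (F_n)`) there is such a `K` for which the
automorphisms in `S` which act on `F_n / K` as an inner automorphism are in `V`. For `S` the set of all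
automorphisms `OutCong n S` is the congruence subgroup property of `Out (F_n)`.

(2) Let `F_{k+l} = F_k * F_l`, `k, l ≥ 1`, and let `S ≤ Out (F_k)`, `T ≤ Out (F_l)` be subgroups which
have finitely generated abelian subgroups of finite index (`VA`; by a theorem of Bestvina, Feighn and Handel these are
the virtually solvable subgroups, for example the cyclic subgroups generated by exponentially growing
outer automorphisms). Let `Rel S T` be the group of all automorphisms of `F_{k+l}` which
map both factors onto conjugates and induce on them elements of `S` and `T`. (It contains the inner
automorphisms, and for `k, l ≥ 2` its image in `Out (F_{k+l})` is isomorphic to `E_S × E_T`, an extension of `S × T` by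
`F_k × F_l`, where `E_S`, `E_T` are the preimages of `S`, `T` in `Aut (F_k)`, `Aut (F_l)`.) Then every finite quotient of `Out (F_{k+l})`, restricted to `Rel S T`, factors
through `Out (F_{k+l} / K)` for some characteristic subgroup `K` of finite index.

(1) The same holds for all members of the family `Fam2`: it contains the preimages in `Aut (F_m)`, `m ≥ 1`, of the
`VA` subgroups of `Out (F_m)`, and the sets of all automorphisms of `F_m` if `m = 1` or the property holds for
`Out (F_m)`, and it is closed under conjugation by automorphisms and under the operations `Prd` (the automorphisms
of `F_k * F_l` which up to an inner automorphism restrict to elements of `S` and `T` on the factors) and `step`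
(the automorphisms of `F_n * ⟨t⟩` which restrict to an element of `S` on `F_n` and map `t` to `u t^{±1} v` with
`u`, `v` in `F_n`) of the starting library (`FreeSplittingStabilizers`, `FlagStabilizers`), where the only
base sets were the full groups `Aut (F_m)`. Both (1) and (2) include groups with free subgroups and with elements
of exponential growth.

The case of the preimage of one `VA` subgroup is the theorem `VirtuallyAbelianSubgroups` of helper19; here an
independent proof is used. Outline. Let `mag : F_n → ℤ⟨⟨X⟩⟩` be the Magnus embedding, and let `Act c N φ` mean that there
is a series `u` with constant term `1` and `mag (φ g) u = u mag g` modulo `N` and modulo the words of length `> c`, for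
all `g`. The subgroups `Act c 0 / Act (c+1) 0` embed in the finitely generated torsion-free groups
`T^n / ad T` (`T` the homogeneous polynomials), compatibly with congruences; the intersection of all `Act c 0` is the
group of inner automorphisms: the limit `u` satisfies `mag (φ g) u = u mag g`, by Fox calculus (in the
bases `x` and `φ (x)`) it lies in the group ring `ℤ[F_n]`, which embeds in `ℤ⟨⟨X⟩⟩`, and its finite
support shows that `φ` is inner. On the abelianization one uses Chevalley's theorem on units (from the
Chebotarev theorem of the starting library) and commutative rings finite over `ℤ`. For the preimage in
`Aut (F_n)` the control of the centre of `F_n / K` of the starting library is used.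

The parts were written by helper3 (EVAL), helper6 (DGEN, MAT, DADD, FOX), helper13 (SUPP), helper21 (GL,
EXT, UNI, LIN, STAB), helper22 (KUM, CHEV), helper23 (FIN, STEP), helper46 (NONPOW), helper53 (INJ, FOX,
GRING), helper66 (COMM, LIM, QUO), helper78 (ACT, DCHG), helper88 (FGX, SEPAB), helper99 (RED, RING) and
helper76.
-/

set_option autoImplicit false

namespace Pool.Agent.Results.MP_181555_al.FreeProductsOfVirtuallyAbelian

open Pool.Agent.R387.TC Pool.Agent.N77.CS Pool.Agent.Helper76x.OF

theorem result :
    (∀ (n : ℕ) (S : Set (MulAut (F n))), Fam2 n S → Cong n S ∧ OutCong n S) ∧
    ∀ k l : ℕ, 1 ≤ k → 1 ≤ l → ∀ (S : Subgroup (Out k)) (T : Subgroup (Out l)), VA S → VA T →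
      Cong (k + l) (Rel S T) ∧ OutCong (k + l) (Rel S T) :=
  ⟨fin_four, fin_five⟩

end Pool.Agent.Results.MP_181555_al.FreeProductsOfVirtuallyAbelian
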