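import Pool.Agent.H19W.CS.Sq

/-!
# Finite quotients of `Out (F_n)` and nilpotent-by-(elementary abelian 2) quotients of `F_n`

Let `n ≥ 4`, let `F` be the free group of rank `n`, and let `R` be a characteristic subgroup of `F`
such that `F / R` is an extension of a nilpotent group by an elementary abelian `2`-group (`F / R` can
be infinite, for example `R = [F², F²]`). Then every finite quotient of `Out (F)` which factors through the
image of `Out (F)` in `Out (F / R)` factors through `Out (F) → Out (F / K)` for some characteristic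
subgroup `K` of finite index. The same holds for `Aut`.

Proof. Let `Γ` be the kernel of `F → {±1}^n`, the subgroup generated by the squares. By the theorem
`VirtuallyNilpotentQuotients` of the starting library it is enough to show that every subgroup of
finite index of `Aut (F)` which contains the group `IAut Γ` of the automorphisms acting trivially on
`F / Γ` and on `Γ / [Γ, Γ]` is a congruence subgroup; this was known for `Γ = F` only. For the `2 ^ n`
characters `χ : F → {±1}` we use the Fox derivatives
`D_χ : F → ℤ^n`. By Magnus, an element `w` is in `[Γ, Γ]` if `D_χ (w) = 0` for all `χ`. The stabiliser of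
`χ` acts on the values of `D_χ`, by the group `GL_n (ℤ)` for `χ = 1` and by `ℤ^{n-1} ⋊ GL_{n-1} (ℤ)`
for `χ ≠ 1`, after a change of the basis of `F`. Let `N` be normal of finite index `m`. The
transvections `x_i ↦ x_i w`, where `w` is a product of conjugates of `x_l^2` without `x_i`, with signs
given by `χ`, are trivial at all characters except two; commutators of their `m`-th powers are
elements of `N` which act by elementary matrices of level `4 ^ n m` at `χ` and trivially at all other
characters. As `n - 1 ≥ 3`, the theorem of Bass, Lazard, Serre and Mennicke on the normal closure of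
elementary matrices in `SL_{n-1} (ℤ)` and `SL_n (ℤ)` shows that each automorphism which acts trivially on all
`D_χ` modulo `4 ^ n m` agrees on `D_χ` with an element of `N` which is trivial at all other characters.
So it is in `N` if `N` contains `IAut Γ`.
-/

set_option autoImplicit false

namespace Pool.Agent.Results.MP_181555_al.NilpotentByElementaryTwo

/-- Let `n ≥ 4`, `F` the free group of rank `n` and `R` a characteristic subgroup of `F` such that
`F / R` is nilpotent-by-(elementary abelian 2): there is a subgroup `P` of `F` containing all squares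
(so that `F / P` is an elementary abelian `2`-group) with `γ_{c+1} P ≤ R` for some `c`. Let `V` be a
subgroup of finite index of `Aut (F)` which contains all automorphisms acting trivially on `F / R`.
Then there is a characteristic subgroup `K` of finite index of `F` such that `V` contains all
automorphisms acting trivially on `F / K`; and if `V` contains the inner automorphisms, it contains
all automorphisms which act on `F / K` as an inner automorphism. -/
theorem result (n : ℕ) (hn : 4 ≤ n) (R P : Subgroup (FreeGroup (Fin n))) (hR : R.Characteristic)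
    (hP : ∀ w, w ^ 2 ∈ P) (hc : ∃ c, P.lowerCentralSeries c ≤ R)
    (V : Subgroup (MulAut (FreeGroup (Fin n)))) (hV : V.FiniteIndex)
    (h : ∀ φ : MulAut (FreeGroup (Fin n)), (∀ x, φ x * x⁻¹ ∈ R) → φ ∈ V) :
    ∃ K : Subgroup (FreeGroup (Fin n)), K.Characteristic ∧ K.FiniteIndex ∧
      (∀ φ : MulAut (FreeGroup (Fin n)), (∀ x, φ x * x⁻¹ ∈ K) → φ ∈ V) ∧
      ((∀ x, MulAut.conj x ∈ V) → ∀ φ : MulAut (FreeGroup (Fin n)),
        (∃ g, ∀ x, φ x * (g * x * g⁻¹)⁻¹ ∈ K) → φ ∈ V) := by
  obtain ⟨k, rfl⟩ : ∃ k, n = k + 3 + 1 := ⟨n - 4, by omega⟩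
  obtain ⟨c, hc⟩ := hc
  have h1 : (H19W.CS.pr (ι := Fin (k + 3 + 1))).ker.Characteristic := H19W.CS.ker_char
  have h2 : (H19W.CS.pr (ι := Fin (k + 3 + 1))).ker.FiniteIndex := H19W.CS.ker_fi
  obtain ⟨K, hK1, hK2, hK3⟩ := R569.CS.csp_all (MonoidHom.id (MulAut (FreeGroup (Fin (k + 3 + 1)))))
    (H19W.CS.pr (ι := Fin (k + 3 + 1))).ker (fun V' hV' hle => by
      obtain ⟨K, hK1, hK2, hK3⟩ := H19W.CS.main V' hV' (fun φ h1 h2 => hle ⟨h1, h2⟩)
      exact ⟨K, hK1, hK2, fun a ha => hK3 a ha⟩) c V hV (fun φ hφ => h φ (fun x =>
        hc (Subgroup.lowerCentralSeries_mono c (H19W.CS.ker_le_of_sq hP) (hφ x))))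
  refine ⟨K, hK1, hK2, fun φ hφ => hK3 hφ, ?_⟩
  rintro hinn φ ⟨g, hg⟩
  have h3 : (MulAut.conj g)⁻¹ * φ ∈ V := by
    apply hK3
    intro x
    have h4 : ((MulAut.conj g)⁻¹ * φ : MulAut _) x * x⁻¹ =
        (MulAut.conj g)⁻¹ (φ x * (g * x * g⁻¹)⁻¹) := by
      rw [MulAut.mul_apply, map_mul, map_inv, MulAut.conj_inv_apply, MulAut.conj_inv_apply]
      group
    show ((MulAut.conj g)⁻¹ * φ : MulAut _) x * x⁻¹ ∈ K
    rw [h4]
    exact Subgroup.characteristic_iff_le_comap.1 hK1 ((MulAut.conj g)⁻¹) (hg x)
  have h5 := V.mul_mem (hinn g) h3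
  rwa [mul_inv_cancel_left] at h5

end Pool.Agent.Results.MP_181555_al.NilpotentByElementaryTwo
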