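import Pool.Agent.H19W.CB.Fin

/-!
# The congruence subgroup property on the virtually solvable subgroups of `Out (F_n)`

Let `n ≥ 2` and let `H` be a subgroup of `Out (F_n)` which has a finitely generated abelian subgroup of
finite index. By a theorem of Bestvina, Feighn and Handel these are the virtually solvable subgroups of
`Out (F_n)`; for example `H` can be generated by the class of any automorphism. Then the congruence
topology (defined by the kernels of the maps `Out (F_n) → Out (F_n / K)`, `K` characteristic of finite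
index) induces on `H` the full profinite topology, and `H` is closed: every subgroup of finite index of
`H` contains the intersection of `H` with the kernel of `Out (F_n) → Out (F_n / K)` for some `K`, and
every element outside of `H` is outside of `H` modulo some `K`. So each finite quotient of `Out (F_n)`
factors on `H` through `Out (F_n / K)`. The same holds for the preimage of `H` in `Aut (F_n)`, an
extension of `H` by `F_n` (e.g. the free-by-cyclic groups `F_n ⋊ ℤ` with infinite cyclic image in
`Out (F_n)`), and for all subgroups of `Aut (F_n)` with a finitely generated abelian subgroup of finite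
index. For the subgroups of `GL_n (ℤ)` this is the theorem of Formanek and Chahal (for the units of
number fields, Chevalley).

Proof. `H` abelian: the elements of `H` acting trivially on `F_n / [F_n, F_n] = ℤ^n` have the descending
filtration by the subgroups `O_d` of the classes of the automorphisms `φ` for which there is an element
`g` of the group ring `ℤ[F_n]`, congruent to `1` modulo the augmentation ideal `I`, such that
`φ (x) g - g x` is in the `d`-th power of `I` for all `x ∈ F_n`. By the Magnus coefficients (iterated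
Fox derivatives) `O_d / O_{d+1}` embeds in a free abelian group `P_d` of finite rank, namely in the cokernel
of `u ↦ ([u, x_j])_j`, which is a direct summand; the elements of `O_d` acting on `F_n / K` as inner
automorphisms, where `K` is the group of the `x` with `x - 1 ∈ I^(d+1) + q ℤ[F_n]`, are mapped to `q P_d`.
The intersection of all `O_d` is trivial: if `φ (x_1)` is conjugate to `x_1` modulo all powers of `I` then it
has the same trace in a representation of `F_n` over `ℤ[X]` in which the degree of the trace is
twice the length of a cyclically reduced word, so `φ (x_1)` is conjugate to `x_1` in `F_n`. A finitely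
generated abelian group intersects some `O_d` trivially, as the quotients are torsion-free. The image of
`H` in `GL_n (ℤ)` generates a commutative algebra over `ℚ`; its homomorphisms to number fields are
treated by Chevalley's theorem on units, which is deduced from Chebotarev's density theorem (starting
library), and the layers of the nilradical are lattices. If `H` is virtually abelian, the elements of `H` in
the closure of an abelian subgroup `A` commute with `A`, which reduces the assertion to abelian groups.
-/

set_option autoImplicit false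

namespace Pool.Agent.Results.MP_181555_al.VirtuallyAbelianSubgroups

open Pool.Agent.H19W.CB

/-- The outer automorphism group `Out (F_n) = Aut (F_n) / Inn (F_n)`. -/
abbrev Out (n : ℕ) : Type :=
  MulAut (FreeGroup (Fin n)) ⧸ (MulAut.conj : FreeGroup (Fin n) →* MulAut (FreeGroup (Fin n))).range

/-- `Inn (F_n)` is a normal subgroup of `Aut (F_n)`. -/
instance (n : ℕ) :
    ((MulAut.conj : FreeGroup (Fin n) →* MulAut (FreeGroup (Fin n))).range).Normal :=
  inferInstanceAs (Inn n).Normal

/-- The class of an automorphism in `Out (F_n)`. -/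
def cls {n : ℕ} (φ : MulAut (FreeGroup (Fin n))) : Out n := QuotientGroup.mk φ

/-- The subgroup `H` has a finitely generated abelian subgroup of finite index. -/
def VirtuallyAbelian {G : Type} [Group G] (H : Subgroup G) : Prop :=
  ∃ A : Subgroup G, A ≤ H ∧ A.relIndex H ≠ 0 ∧ A.FG ∧ ∀ a ∈ A, ∀ b ∈ A, a * b = b * a

/-- `φ` acts on `F_n / K` as an inner automorphism. -/
def ActsInner {n : ℕ} (K : Subgroup (FreeGroup (Fin n))) (φ : MulAut (FreeGroup (Fin n))) : Prop :=
  ∃ g, ∀ x, φ x * (g * x * g⁻¹)⁻¹ ∈ K

/-- `φ` acts trivially on `F_n / K`. -/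
def ActsTrivially {n : ℕ} (K : Subgroup (FreeGroup (Fin n))) (φ : MulAut (FreeGroup (Fin n))) :
    Prop :=
  ∀ x, φ x * x⁻¹ ∈ K

lemma good {n : ℕ} (hn : 2 ≤ n) {H : Subgroup (Out n)} (hH : VirtuallyAbelian H) :
    Good (Gm (n := n)) H := by
  obtain ⟨A, h1, h2, h3, h4⟩ := hH
  have h01 : (⟨0, by omega⟩ : Fin n) ≠ ⟨1, by omega⟩ := by simp
  exact good_virt h01 H A h1 h2 h3 h4

lemma closed {n : ℕ} (hn : 2 ≤ n) {H : Subgroup (Out n)} (hH : VirtuallyAbelian H) (x : Out n)
    (hx : x ∉ H) : ∃ K : CI n, ∀ h ∈ H, h⁻¹ * x ∉ Gm K := by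
  obtain ⟨A, h1, h2, h3, h4⟩ := hH
  have h01 : (⟨0, by omega⟩ : Fin n) ≠ ⟨1, by omega⟩ := by simp
  have hne : Nonempty (CI n) := ⟨kI le_rfl 0⟩
  exact virt_closed Gm Gm_dir (fun K => inferInstance) (Gm_bot h01) (good_abelian h01) H A h2 h3 h1 h4
    x hx

lemma pow_of {G : Type} [Group G] {U H : Subgroup G} (h : U.relIndex H ≠ 0) :
    ∀ g ∈ H, ∃ m : ℕ, 1 ≤ m ∧ g ^ m ∈ U := by
  intro g hg
  obtain ⟨m, hm, -, h2⟩ := Subgroup.exists_pow_mem_of_relIndex_ne_zero h hg
  exact ⟨m, hm, h2.1⟩

/-- Let `n ≥ 2`. (1) Let `H` be a subgroup of `Out (F_n)` with a finitely generated abelian subgroup of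
finite index. Every subgroup of finite index of `H` contains the elements of `H` which act on `F_n / K` as
inner automorphisms, for some characteristic subgroup `K` of finite index; for every element `φ` outside of
`H` there is such a `K` for which no element of `φ H` acts on `F_n / K` as an inner automorphism; and every
subgroup of finite index of the preimage of `H` in `Aut (F_n)` contains the elements of this preimage acting
trivially on `F_n / K` for some such `K`. (2) Let `A` be a subgroup of `Aut (F_n)` with a finitely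
generated abelian subgroup of finite index. Every subgroup of finite index of `A` contains the elements of
`A` acting trivially on `F_n / K` for some `K` as in (1), and for every `φ` outside of `A` there is such a `K`
for which no element of `A⁻¹ φ` acts trivially on `F_n / K`. -/
theorem result (n : ℕ) (hn : 2 ≤ n) :
    (∀ H : Subgroup (Out n), VirtuallyAbelian H →
      (∀ U : Subgroup (Out n), U.relIndex H ≠ 0 →
        ∃ K : Subgroup (FreeGroup (Fin n)), K.Characteristic ∧ K.FiniteIndex ∧
          ∀ φ, cls φ ∈ H → ActsInner K φ → cls φ ∈ U) ∧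
      (∀ φ, cls φ ∉ H → ∃ K : Subgroup (FreeGroup (Fin n)), K.Characteristic ∧ K.FiniteIndex ∧
        ∀ ψ, cls ψ ∈ H → ¬ ActsInner K (ψ⁻¹ * φ)) ∧
      (∀ U : Subgroup (MulAut (FreeGroup (Fin n))),
        U.relIndex (H.comap (QuotientGroup.mk' _)) ≠ 0 →
        ∃ K : Subgroup (FreeGroup (Fin n)), K.Characteristic ∧ K.FiniteIndex ∧
          ∀ φ, cls φ ∈ H → ActsTrivially K φ → φ ∈ U)) ∧
    (∀ A : Subgroup (MulAut (FreeGroup (Fin n))), VirtuallyAbelian A →
      (∀ U : Subgroup (MulAut (FreeGroup (Fin n))), U.relIndex A ≠ 0 →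
        ∃ K : Subgroup (FreeGroup (Fin n)), K.Characteristic ∧ K.FiniteIndex ∧
          ∀ φ ∈ A, ActsTrivially K φ → φ ∈ U) ∧
      (∀ φ ∉ A, ∃ K : Subgroup (FreeGroup (Fin n)), K.Characteristic ∧ K.FiniteIndex ∧
        ∀ ψ ∈ A, ¬ ActsTrivially K (ψ⁻¹ * φ))) := by
  refine ⟨fun H hH => ⟨fun U hU => ?_, fun φ hφ => ?_, fun U hU => ?_⟩, fun A hA => ?_⟩
  · obtain ⟨K, hK⟩ := good hn hH U (pow_of hU)
    refine ⟨K.1, K.2.1, K.2.2, fun φ h1 h2 => hK ⟨h1, ?_⟩⟩
    exact (mem_im (inn_le_Gm' K) φ).2 h2
  · obtain ⟨K, hK⟩ := closed hn hH (cls φ) hφ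
    refine ⟨K.1, K.2.1, K.2.2, fun ψ h1 h2 => hK _ h1 ?_⟩
    exact (mem_im (inn_le_Gm' K) (ψ⁻¹ * φ)).2 h2
  · obtain ⟨k, rfl⟩ : ∃ k, n = k + 1 := ⟨n - 1, by omega⟩
    obtain ⟨K, hK⟩ := aut_of_out ⟨0, by omega⟩ H (good hn hH) U hU
    exact ⟨K.1, K.2.1, K.2.2, fun φ h1 h2 => hK φ h1 h2⟩
  · obtain ⟨A0, h1, h2, h3, h4⟩ := hA
    obtain ⟨h5, h6⟩ := aut_part (by omega) A A0 h1 h2 h3 h4
    refine ⟨fun U hU => ?_, fun φ hφ => ?_⟩
    · obtain ⟨K, hK⟩ := h5 U (pow_of hU)
      exact ⟨K.1, K.2.1, K.2.2, hK⟩
    · obtain ⟨K, hK⟩ := h6 φ hφ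
      exact ⟨K.1, K.2.1, K.2.2, hK⟩

end Pool.Agent.Results.MP_181555_al.VirtuallyAbelianSubgroups
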